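import Pool.Agent.H63.G3.Stm

/-!
# Project G3 (helper63), task JACK (helper696): Jackson's theorem in three variables
-/

set_option autoImplicit false

namespace Pool.Agent.H696.G3

open Finset Complex intervalIntegral
open Pool.Agent.H63.G3

/-- `e^{ix}` -/
noncomputable def e (x : ℝ) : ℂ := Complex.exp ((x : ℂ) * Complex.I)

theorem e_add (x y : ℝ) : e (x + y) = e x * e y := by
  unfold e
  rw [← Complex.exp_add]
  congr 1
  push_cast
  ring

theorem e_cont : Continuous e := by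
  unfold e
  fun_prop

theorem e_period (l : ℤ) (x : ℝ) : e (l * (x + 2 * Real.pi)) = e (l * x) := by
  unfold e
  rw [Complex.exp_eq_exp_iff_exists_int]
  refine ⟨l, ?_⟩
  push_cast
  ring

/-- the kernel -/
noncomputable def ker (N : ℕ) (κ : ℕ → ℝ) (u : ℝ) : ℝ := 1 + 2 * ∑ l ∈ Icc 1 N, κ l * Real.cos (l * u)

theorem ker_cont (N : ℕ) (κ : ℕ → ℝ) : Continuous (ker N κ) := by
  unfold ker
  fun_prop

theorem sum_sym (f : ℤ → ℂ) (N : ℕ) :
    ∑ l ∈ Icc (-(N : ℤ)) N, f l = f 0 + ∑ l ∈ Icc 1 N, (f (l : ℤ) + f (-(l : ℤ))) := by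
  induction N with
  | zero => simp
  | succ N ih =>
    have h1 : Icc (-((N + 1 : ℕ) : ℤ)) ((N + 1 : ℕ) : ℤ) =
        insert ((N + 1 : ℕ) : ℤ) (insert (-((N + 1 : ℕ) : ℤ)) (Icc (-(N : ℤ)) N)) := by
      ext x
      simp only [mem_Icc, mem_insert]
      push_cast
      omega
    rw [h1, sum_insert, sum_insert, ih, sum_Icc_succ_top (by omega)]
    · ring
    · simp only [mem_Icc]
      push_cast
      omega
    · simp only [mem_Icc, mem_insert]
      push_cast
      omega

theorem ker_eq (N : ℕ) (κ : ℕ → ℝ) (h0 : κ 0 = 1) (u : ℝ) :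
    (ker N κ u : ℂ) = ∑ l ∈ Icc (-(N : ℤ)) N, (κ l.natAbs : ℂ) * e (l * u) := by
  rw [sum_sym]
  have h1 : (κ (0 : ℤ).natAbs : ℂ) * e (((0 : ℤ) : ℝ) * u) = 1 := by
    simp [h0, e]
  rw [h1]
  unfold ker
  push_cast
  rw [mul_sum]
  congr 1
  refine sum_congr rfl fun l _ => ?_
  have h2 : ((l : ℤ)).natAbs = l := Int.natAbs_natCast l
  have h3 : (-(l : ℤ)).natAbs = l := by rw [Int.natAbs_neg, h2]
  rw [h2, h3, ← mul_add]
  have h4 : e ((l : ℝ) * u) + e (-(l : ℝ) * u) = 2 * Complex.cos (l * u) := by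
    unfold e
    rw [Complex.two_cos]
    congr 2
    · push_cast
      ring
    · push_cast
      ring
  rw [h4]
  ring

theorem ker_int (N : ℕ) (κ : ℕ → ℝ) : ∫ u in (-Real.pi)..Real.pi, ker N κ u = 2 * Real.pi := by
  unfold ker
  rw [intervalIntegral.integral_add (by simp) (Continuous.intervalIntegrable (by fun_prop) _ _),
    intervalIntegral.integral_const_mul, intervalIntegral.integral_finsetSum
      (fun l _ => Continuous.intervalIntegrable (by fun_prop) _ _)]
  have h : ∑ l ∈ Icc 1 N, ∫ u in (-Real.pi)..Real.pi, κ l * Real.cos (l * u) = 0 := by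
    refine sum_eq_zero fun l hl => ?_
    rw [mem_Icc] at hl
    have hl0 : (l : ℝ) ≠ 0 := by
      have : l ≠ 0 := by omega
      exact_mod_cast this
    rw [intervalIntegral.integral_const_mul, intervalIntegral.integral_comp_mul_left (fun x => Real.cos x) hl0,
      integral_cos]
    have h1 : Real.sin ((l : ℝ) * Real.pi) = 0 := Real.sin_nat_mul_pi l
    have h2 : Real.sin ((l : ℝ) * -Real.pi) = 0 := by
      rw [mul_neg, Real.sin_neg, h1, neg_zero]
    rw [h1, h2]
    simp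
  rw [h]
  simp
  ring

/-! ### Smoothing in one variable -/

/-- the smoothing in the variable `i` -/
noncomputable def sm (N : ℕ) (κ : ℕ → ℝ) (i : Fin 3) (F : (Fin 3 → ℝ) → ℝ) (t : Fin 3 → ℝ) : ℝ :=
  (2 * Real.pi)⁻¹ * ∫ u in (-Real.pi)..Real.pi, F (Function.update t i (t i - u)) * ker N κ u

theorem lip_cont {F : (Fin 3 → ℝ) → ℝ} {B : ℝ} (hB : 0 ≤ B) (h : Lip F B) : Continuous F := by
  have h1 : LipschitzWith (Real.toNNReal (3 * B)) F := by
    refine LipschitzWith.of_dist_le_mul fun x y => ?_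
    rw [Real.dist_eq, Real.coe_toNNReal _ (by positivity)]
    refine (h.2 x y).trans ?_
    have h2 : ∑ i, |x i - y i| ≤ ∑ _i : Fin 3, dist x y :=
      sum_le_sum fun i _ => by
        rw [← Real.dist_eq]
        exact dist_le_pi_dist x y i
    rw [sum_const, card_univ, Fintype.card_fin, nsmul_eq_mul] at h2
    calc B * ∑ i, |x i - y i| ≤ B * (((3 : ℕ) : ℝ) * dist x y) := mul_le_mul_of_nonneg_left h2 hB
      _ = 3 * B * dist x y := by push_cast; ring
  exact h1.continuous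

theorem upd_cont (t : Fin 3 → ℝ) (i : Fin 3) : Continuous (fun u : ℝ => Function.update t i (t i - u)) :=
  (continuous_const : Continuous fun _ : ℝ => t).update i (by fun_prop)

theorem avg_le {N : ℕ} {κ : ℕ → ℝ} (hpos : ∀ u, 0 ≤ ker N κ u) (g h : ℝ → ℝ) (hg : Continuous g) (hh : Continuous h)
    (hgh : ∀ u, |g u| ≤ h u) :
    |(2 * Real.pi)⁻¹ * ∫ u in (-Real.pi)..Real.pi, g u * ker N κ u| ≤
      (2 * Real.pi)⁻¹ * ∫ u in (-Real.pi)..Real.pi, h u * ker N κ u := by
  have hpi := Real.pi_pos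
  rw [abs_mul, abs_of_pos (by positivity)]
  refine mul_le_mul_of_nonneg_left ?_ (by positivity)
  refine (intervalIntegral.abs_integral_le_integral_abs (by linarith)).trans ?_
  refine intervalIntegral.integral_mono_on (by linarith)
    (Continuous.intervalIntegrable ((hg.mul (ker_cont N κ)).abs) _ _)
    (Continuous.intervalIntegrable (hh.mul (ker_cont N κ)) _ _) ?_
  intro u _
  rw [abs_mul, abs_of_nonneg (hpos u)]
  exact mul_le_mul_of_nonneg_right (hgh u) (hpos u)

theorem avg_const {N : ℕ} {κ : ℕ → ℝ} (c : ℝ) :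
    (2 * Real.pi)⁻¹ * ∫ u in (-Real.pi)..Real.pi, c * ker N κ u = c := by
  have hpi := Real.pi_pos
  rw [intervalIntegral.integral_const_mul, ker_int]
  field_simp

theorem avg_sub {N : ℕ} {κ : ℕ → ℝ} (f g : ℝ → ℝ) (hf : Continuous f) (hg : Continuous g) :
    (2 * Real.pi)⁻¹ * (∫ u in (-Real.pi)..Real.pi, f u * ker N κ u) -
      (2 * Real.pi)⁻¹ * (∫ u in (-Real.pi)..Real.pi, g u * ker N κ u) =
      (2 * Real.pi)⁻¹ * ∫ u in (-Real.pi)..Real.pi, (f u - g u) * ker N κ u := by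
  have h1 : Continuous fun u => f u * ker N κ u := hf.mul (ker_cont N κ)
  have h2 : Continuous fun u => g u * ker N κ u := hg.mul (ker_cont N κ)
  rw [← mul_sub, ← intervalIntegral.integral_sub (h1.intervalIntegrable _ _) (h2.intervalIntegrable _ _)]
  congr 1
  exact intervalIntegral.integral_congr fun u _ => by ring

theorem sm_near {N : ℕ} {κ : ℕ → ℝ} (hpos : ∀ u, 0 ≤ ker N κ u)
    (hmean : (∫ u in (-Real.pi)..Real.pi, |u| * ker N κ u) ≤ 2 * Real.pi * (Real.pi ^ 2 / (2 * (N + 2))))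
    (i : Fin 3) {F : (Fin 3 → ℝ) → ℝ} {B : ℝ} (hB : 0 ≤ B) (h : Lip F B) (t : Fin 3 → ℝ) :
    |F t - sm N κ i F t| ≤ B * (Real.pi ^ 2 / (2 * (N + 2))) := by
  have hpi := Real.pi_pos
  have hF := lip_cont hB h
  have h1 : F t - sm N κ i F t =
      (2 * Real.pi)⁻¹ * ∫ u in (-Real.pi)..Real.pi, (F t - F (Function.update t i (t i - u))) * ker N κ u := by
    unfold sm
    nth_rewrite 1 [← avg_const (N := N) (κ := κ) (F t)]
    exact avg_sub (fun _ => F t) (fun u => F (Function.update t i (t i - u))) continuous_const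
      (hF.comp (upd_cont t i))
  rw [h1]
  refine (avg_le hpos (fun u => F t - F (Function.update t i (t i - u))) (fun u => B * |u|)
    (continuous_const.sub (hF.comp (upd_cont t i))) (by fun_prop) fun u => ?_).trans ?_
  · refine (h.2 t (Function.update t i (t i - u))).trans (le_of_eq ?_)
    congr 1
    rw [sum_eq_single i]
    · simp
    · intro j _ hj
      rw [Function.update_of_ne hj]
      simp
    · intro hi
      exact absurd (mem_univ i) hi
  · have h2 : ∫ u in (-Real.pi)..Real.pi, B * |u| * ker N κ u =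
        B * ∫ u in (-Real.pi)..Real.pi, |u| * ker N κ u := by
      rw [← intervalIntegral.integral_const_mul]
      exact intervalIntegral.integral_congr fun u _ => by ring
    rw [h2]
    calc (2 * Real.pi)⁻¹ * (B * ∫ u in (-Real.pi)..Real.pi, |u| * ker N κ u) ≤
        (2 * Real.pi)⁻¹ * (B * (2 * Real.pi * (Real.pi ^ 2 / (2 * (N + 2))))) :=
          mul_le_mul_of_nonneg_left (mul_le_mul_of_nonneg_left hmean hB) (by positivity)
      _ = B * (Real.pi ^ 2 / (2 * (N + 2))) := by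
          field_simp

theorem sm_lip {N : ℕ} {κ : ℕ → ℝ} (hpos : ∀ u, 0 ≤ ker N κ u)
    (i : Fin 3) {F : (Fin 3 → ℝ) → ℝ} {B : ℝ} (hB : 0 ≤ B) (h : Lip F B) : Lip (sm N κ i F) B := by
  have hF := lip_cont hB h
  refine ⟨fun t j => ?_, fun t t' => ?_⟩
  · unfold sm
    congr 1
    refine intervalIntegral.integral_congr fun u _ => ?_
    show F _ * _ = F _ * _
    congr 1
    by_cases hj : j = i
    · subst hj
      rw [Function.update_self, Function.update_idem]
      have h1 := h.1 (Function.update t j (t j - u)) j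
      rw [Function.update_self, Function.update_idem] at h1
      rw [← h1]
      congr 2
      ring
    · rw [Function.update_of_ne (Ne.symm hj), Function.update_comm hj]
      have h1 := h.1 (Function.update t i (t i - u)) j
      rw [Function.update_of_ne hj] at h1
      exact h1
  · have h1 : sm N κ i F t - sm N κ i F t' =
        (2 * Real.pi)⁻¹ * ∫ u in (-Real.pi)..Real.pi, (F (Function.update t i (t i - u)) -
          F (Function.update t' i (t' i - u))) * ker N κ u := by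
      exact avg_sub (fun u => F (Function.update t i (t i - u))) (fun u => F (Function.update t' i (t' i - u)))
        (hF.comp (upd_cont t i)) (hF.comp (upd_cont t' i))
    rw [h1]
    refine (avg_le hpos (fun u => F (Function.update t i (t i - u)) - F (Function.update t' i (t' i - u)))
      (fun _ => B * ∑ i, |t i - t' i|) ((hF.comp (upd_cont t i)).sub (hF.comp (upd_cont t' i)))
      continuous_const fun u => ?_).trans (le_of_eq (avg_const _))
    refine (h.2 (Function.update t i (t i - u)) (Function.update t' i (t' i - u))).trans (le_of_eq ?_)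
    congr 1
    refine sum_congr rfl fun j _ => ?_
    by_cases hj : j = i
    · subst hj
      simp
    · rw [Function.update_of_ne hj, Function.update_of_ne hj]

/-! ### The coefficients -/

/-- the coefficient of `e^{i l t_i}` in the smoothed function -/
noncomputable def co (κ : ℕ → ℝ) (i : Fin 3) (l : ℤ) (G : (Fin 3 → ℝ) → ℂ) (t : Fin 3 → ℝ) : ℂ :=
  (κ l.natAbs : ℂ) * ((2 * Real.pi : ℝ) : ℂ)⁻¹ * ∫ s in (-Real.pi)..Real.pi, G (Function.update t i s) * e (-(l * s))

theorem co_cont (κ : ℕ → ℝ) (i : Fin 3) (l : ℤ) {G : (Fin 3 → ℝ) → ℂ} (hG : Continuous G) :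
    Continuous (co κ i l G) := by
  unfold co
  refine continuous_const.mul ?_
  apply intervalIntegral.continuous_parametric_intervalIntegral_of_continuous'
  show Continuous fun p : (Fin 3 → ℝ) × ℝ => G (Function.update p.1 i p.2) * e (-(l * p.2))
  exact (hG.comp (continuous_fst.update i continuous_snd)).mul (e_cont.comp (by fun_prop))

theorem co_self (κ : ℕ → ℝ) (i : Fin 3) (l : ℤ) (G : (Fin 3 → ℝ) → ℂ) (t : Fin 3 → ℝ) (x : ℝ) :
    co κ i l G (Function.update t i x) = co κ i l G t := by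
  unfold co
  simp only [Function.update_idem]

theorem co_other (κ : ℕ → ℝ) (i j : Fin 3) (hij : j ≠ i) (l : ℤ) (G : (Fin 3 → ℝ) → ℂ)
    (hG : ∀ t x, G (Function.update t j x) = G t) (t : Fin 3 → ℝ) (x : ℝ) :
    co κ i l G (Function.update t j x) = co κ i l G t := by
  unfold co
  congr 1
  refine intervalIntegral.integral_congr fun s _ => ?_
  show G _ * _ = G _ * _
  rw [Function.update_comm hij, hG]

theorem co_sum (κ : ℕ → ℝ) (i j : Fin 3) (hij : j ≠ i) (l : ℤ) (I : Finset ℤ) (H : ℤ → (Fin 3 → ℝ) → ℂ)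
    (hH : ∀ m, Continuous (H m)) (t : Fin 3 → ℝ) :
    co κ i l (fun t => ∑ m ∈ I, e (m * t j) * H m t) t = ∑ m ∈ I, e (m * t j) * co κ i l (H m) t := by
  unfold co
  have h1 : ∫ s in (-Real.pi)..Real.pi, (∑ m ∈ I, e (m * (Function.update t i s) j) * H m (Function.update t i s)) *
      e (-(l * s)) = ∑ m ∈ I, e (m * t j) * ∫ s in (-Real.pi)..Real.pi, H m (Function.update t i s) * e (-(l * s)) := by
    have h2 : ∀ s : ℝ, (∑ m ∈ I, e (m * (Function.update t i s) j) * H m (Function.update t i s)) * e (-(l * s)) =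
        ∑ m ∈ I, e (m * t j) * (H m (Function.update t i s) * e (-(l * s))) := by
      intro s
      rw [sum_mul]
      refine sum_congr rfl fun m _ => ?_
      rw [Function.update_of_ne hij]
      ring
    have h3 : ∀ m ∈ I, IntervalIntegrable (fun s : ℝ => e (m * t j) * (H m (Function.update t i s) * e (-(l * s))))
        MeasureTheory.volume (-Real.pi) Real.pi := by
      intro m _
      refine Continuous.intervalIntegrable ?_ _ _
      exact continuous_const.mul (((hH m).comp (continuous_const.update i continuous_id)).mul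
        (e_cont.comp (by fun_prop)))
    rw [intervalIntegral.integral_congr fun s _ => h2 s, intervalIntegral.integral_finsetSum h3]
    exact sum_congr rfl fun m _ => intervalIntegral.integral_const_mul _ _
  rw [h1, mul_sum]
  refine sum_congr rfl fun m _ => ?_
  ring

theorem sm_rep {N : ℕ} {κ : ℕ → ℝ} (h0 : κ 0 = 1) (i : Fin 3) {F : (Fin 3 → ℝ) → ℝ} {B : ℝ} (hB : 0 ≤ B)
    (h : Lip F B) (t : Fin 3 → ℝ) :
    (sm N κ i F t : ℂ) = ∑ l ∈ Icc (-(N : ℤ)) N, e (l * t i) * co κ i l (fun t => (F t : ℂ)) t := by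
  have hF := lip_cont hB h
  have hFc : Continuous fun t => (F t : ℂ) := Complex.continuous_ofReal.comp hF
  have h1 : (sm N κ i F t : ℂ) = ((2 * Real.pi : ℝ) : ℂ)⁻¹ * ∫ u in (-Real.pi)..Real.pi,
      ∑ l ∈ Icc (-(N : ℤ)) N, (κ l.natAbs : ℂ) * ((F (Function.update t i (t i - u)) : ℂ) * e (l * u)) := by
    unfold sm
    push_cast
    congr 1
    rw [← intervalIntegral.integral_ofReal]
    refine intervalIntegral.integral_congr fun u _ => ?_
    show ((F (Function.update t i (t i - u)) * ker N κ u : ℝ) : ℂ) = _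
    rw [Complex.ofReal_mul, ker_eq N κ h0, mul_sum]
    exact sum_congr rfl fun l _ => by ring
  have h3 : ∀ l : ℤ, Continuous fun u : ℝ => (F (Function.update t i (t i - u)) : ℂ) * e (l * u) := fun l =>
    (hFc.comp (upd_cont t i)).mul (e_cont.comp (by fun_prop))
  have h4 : ∀ l : ℤ, ∫ u in (-Real.pi)..Real.pi, (F (Function.update t i (t i - u)) : ℂ) * e (l * u) =
      e (l * t i) * ∫ s in (-Real.pi)..Real.pi, (F (Function.update t i s) : ℂ) * e (-(l * s)) := by
    intro l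
    have hper : Function.Periodic (fun s : ℝ => (F (Function.update t i s) : ℂ) * e (-(l * s))) (2 * Real.pi) := by
      intro s
      show (F (Function.update t i (s + 2 * Real.pi)) : ℂ) * e (-(l * (s + 2 * Real.pi))) = _
      have h5 := h.1 (Function.update t i s) i
      rw [Function.update_self, Function.update_idem] at h5
      have h6 := e_period (-l) s
      have h7 : e (-(l * (s + 2 * Real.pi))) = e (-(l * s)) := by
        have h8 : ∀ x : ℝ, ((-l : ℤ) : ℝ) * x = -(l * x) := by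
          intro x
          push_cast
          ring
        rw [h8, h8] at h6
        exact h6
      rw [h5, h7]
    have h9 : ∀ u : ℝ, (F (Function.update t i (t i - u)) : ℂ) * e (l * u) =
        e (l * t i) * ((fun s : ℝ => (F (Function.update t i s) : ℂ) * e (-(l * s))) (t i - u)) := by
      intro u
      show _ = e (l * t i) * ((F (Function.update t i (t i - u)) : ℂ) * e (-(l * (t i - u))))
      have h10 : (l : ℝ) * u = l * t i + -(l * (t i - u)) := by ring
      rw [h10, e_add]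
      ring
    rw [intervalIntegral.integral_congr fun u _ => h9 u, intervalIntegral.integral_const_mul,
      intervalIntegral.integral_comp_sub_left (fun s : ℝ => (F (Function.update t i s) : ℂ) * e (-(l * s))) (t i)]
    congr 1
    have h11 := hper.intervalIntegral_add_eq (t i - Real.pi) (-Real.pi)
    have h12 : t i - Real.pi + 2 * Real.pi = t i - -Real.pi := by ring
    have h13 : -Real.pi + 2 * Real.pi = Real.pi := by ring
    rw [h12, h13] at h11
    exact h11
  have h5 : ∀ l : ℤ, Continuous fun u : ℝ => (κ l.natAbs : ℂ) * ((F (Function.update t i (t i - u)) : ℂ) * e (l * u)) :=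
    fun l => continuous_const.mul (h3 l)
  rw [h1, intervalIntegral.integral_finsetSum (fun l _ => (h5 l).intervalIntegrable _ _), mul_sum]
  refine sum_congr rfl fun l _ => ?_
  rw [intervalIntegral.integral_const_mul, h4]
  unfold co
  ring

theorem sm_cont {N : ℕ} {κ : ℕ → ℝ} (hpos : ∀ u, 0 ≤ ker N κ u) (i : Fin 3) {F : (Fin 3 → ℝ) → ℝ} {B : ℝ}
    (hB : 0 ≤ B) (h : Lip F B) : Continuous fun t => (sm N κ i F t : ℂ) :=
  Complex.continuous_ofReal.comp (lip_cont hB (sm_lip hpos i hB h))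

/-- the coefficients -/
noncomputable def p0 (κ : ℕ → ℝ) (F : (Fin 3 → ℝ) → ℝ) (n : Fin 3 → ℤ) : ℂ :=
  co κ 0 (n 0) (co κ 1 (n 1) (co κ 2 (n 2) (fun t => (F t : ℂ)))) 0

theorem co3_eq (κ : ℕ → ℝ) (G : (Fin 3 → ℝ) → ℂ) (a b c : ℤ) (t : Fin 3 → ℝ) :
    co κ 0 a (co κ 1 b (co κ 2 c G)) t = co κ 0 a (co κ 1 b (co κ 2 c G)) 0 := by
  have h2 : ∀ t x, co κ 2 c G (Function.update t 2 x) = co κ 2 c G t := co_self κ 2 c G
  have h12 : ∀ t x, co κ 1 b (co κ 2 c G) (Function.update t 2 x) = co κ 1 b (co κ 2 c G) t :=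
    co_other κ 1 2 (by decide) b _ h2
  have h11 : ∀ t x, co κ 1 b (co κ 2 c G) (Function.update t 1 x) = co κ 1 b (co κ 2 c G) t :=
    co_self κ 1 b _
  have h02 := co_other κ 0 2 (by decide) a _ h12
  have h01 := co_other κ 0 1 (by decide) a _ h11
  have h00 := co_self κ 0 a (co κ 1 b (co κ 2 c G))
  have ht : (0 : Fin 3 → ℝ) = Function.update (Function.update (Function.update t 0 0) 1 0) 2 0 := by
    funext j
    fin_cases j <;> simp [Function.update]
  rw [ht, h02, h01, h00]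

theorem sum3 (I : Finset ℤ) (f : (Fin 3 → ℤ) → ℂ) :
    ∑ n ∈ Fintype.piFinset (fun _ : Fin 3 => I), f n = ∑ a ∈ I, ∑ b ∈ I, ∑ c ∈ I, f ![a, b, c] := by
  have h1 : ∑ a ∈ I, ∑ b ∈ I, ∑ c ∈ I, f ![a, b, c] = ∑ q ∈ I ×ˢ (I ×ˢ I), f ![q.1, q.2.1, q.2.2] := by
    rw [sum_product]
    refine sum_congr rfl fun a _ => ?_
    rw [sum_product]
  rw [h1]
  refine sum_nbij' (fun n => (n 0, n 1, n 2)) (fun q => ![q.1, q.2.1, q.2.2]) ?_ ?_ ?_ ?_ ?_
  · intro n hn
    rw [Fintype.mem_piFinset] at hn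
    simp only [mem_product]
    exact ⟨hn 0, hn 1, hn 2⟩
  · intro q hq
    simp only [mem_product] at hq
    rw [Fintype.mem_piFinset]
    intro j
    fin_cases j
    · exact hq.1
    · exact hq.2.1
    · exact hq.2.2
  · intro n _
    funext j
    fin_cases j <;> rfl
  · intro q _
    rfl
  · intro n _
    congr 1
    funext j
    fin_cases j <;> rfl

theorem mon_eq (a b c : ℤ) (t : Fin 3 → ℝ) : mon ![a, b, c] t = e (a * t 0) * (e (b * t 1) * e (c * t 2)) := by
  rw [← e_add, ← e_add]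
  unfold mon e
  rw [Fin.sum_univ_three]
  simp only [Matrix.cons_val_zero, Matrix.cons_val_one, Matrix.cons_val]
  congr 2
  push_cast
  ring

theorem sm3_rep {N : ℕ} {κ : ℕ → ℝ} (h0 : κ 0 = 1) (hpos : ∀ u, 0 ≤ ker N κ u) {F : (Fin 3 → ℝ) → ℝ} {B : ℝ}
    (hB : 0 ≤ B) (h : Lip F B) (t : Fin 3 → ℝ) :
    (sm N κ 0 (sm N κ 1 (sm N κ 2 F)) t : ℂ) =
      ∑ n ∈ Fintype.piFinset (fun _ : Fin 3 => Icc (-(N : ℤ)) N), p0 κ F n * mon n t := by
  have hF := lip_cont hB h
  have hFc : Continuous fun t => (F t : ℂ) := Complex.continuous_ofReal.comp hF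
  have l2 := sm_lip hpos 2 hB h
  have l1 := sm_lip hpos 1 hB l2
  rw [sum3, sm_rep h0 0 hB l1]
  refine sum_congr rfl fun a _ => ?_
  have e1 : (fun t => (sm N κ 1 (sm N κ 2 F) t : ℂ)) = fun t => ∑ b ∈ Icc (-(N : ℤ)) N, e (b * t 1) *
      (fun t => ∑ c ∈ Icc (-(N : ℤ)) N, e (c * t 2) * co κ 1 b (co κ 2 c (fun t => (F t : ℂ))) t) t := by
    funext t
    rw [sm_rep h0 1 hB l2]
    refine sum_congr rfl fun b _ => ?_
    have e2 : (fun t => (sm N κ 2 F t : ℂ)) = fun t => ∑ c ∈ Icc (-(N : ℤ)) N, e (c * t 2) *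
        co κ 2 c (fun t => (F t : ℂ)) t := by
      funext t
      exact sm_rep h0 2 hB h t
    rw [e2, co_sum κ 1 2 (by decide) b _ (fun c => co κ 2 c (fun t => (F t : ℂ))) (fun c => co_cont κ 2 c hFc)]
  have hc1 : ∀ b c, Continuous (co κ 1 b (co κ 2 c (fun t => (F t : ℂ)))) := fun b c =>
    co_cont κ 1 b (co_cont κ 2 c hFc)
  rw [e1, co_sum κ 0 1 (by decide) a _ (fun b t => ∑ c ∈ Icc (-(N : ℤ)) N, e (c * t 2) *
    co κ 1 b (co κ 2 c (fun t => (F t : ℂ))) t) (fun b => by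
      refine continuous_finsetSum _ fun c _ => ?_
      exact (e_cont.comp (by fun_prop)).mul (hc1 b c)), mul_sum]
  refine sum_congr rfl fun b _ => ?_
  rw [co_sum κ 0 2 (by decide) a _ (fun c => co κ 1 b (co κ 2 c (fun t => (F t : ℂ)))) (fun c => hc1 b c),
    mul_sum, mul_sum]
  refine sum_congr rfl fun c _ => ?_
  rw [co3_eq, mon_eq]
  unfold p0
  simp only [Matrix.cons_val_zero, Matrix.cons_val_one, Matrix.cons_val]
  ring

theorem near3 {N : ℕ} {κ : ℕ → ℝ} (h0 : κ 0 = 1) (hpos : ∀ u, 0 ≤ ker N κ u)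
    (hmean : (∫ u in (-Real.pi)..Real.pi, |u| * ker N κ u) ≤ 2 * Real.pi * (Real.pi ^ 2 / (2 * (N + 2))))
    {F : (Fin 3 → ℝ) → ℝ} {B : ℝ} (hB : 0 ≤ B) (h : Lip F B) (t : Fin 3 → ℝ) :
    ‖(F t : ℂ) - ∑ n ∈ Fintype.piFinset (fun _ : Fin 3 => Icc (-(N : ℤ)) N), p0 κ F n * mon n t‖ ≤
      3 * B * (Real.pi ^ 2 / (2 * (N + 2))) := by
  have l2 := sm_lip hpos 2 hB h
  have l1 := sm_lip hpos 1 hB l2
  have n2 := sm_near hpos hmean 2 hB h t
  have n1 := sm_near hpos hmean 1 hB l2 t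
  have n0 := sm_near hpos hmean 0 hB l1 t
  rw [← sm3_rep h0 hpos hB h, ← Complex.ofReal_sub, Complex.norm_real, Real.norm_eq_abs]
  have e1 : F t - sm N κ 0 (sm N κ 1 (sm N κ 2 F)) t = (F t - sm N κ 2 F t) +
      ((sm N κ 2 F t - sm N κ 1 (sm N κ 2 F) t) +
        (sm N κ 1 (sm N κ 2 F) t - sm N κ 0 (sm N κ 1 (sm N κ 2 F)) t)) := by ring
  rw [e1]
  refine (abs_add_le _ _).trans ?_
  have e2 := abs_add_le (sm N κ 2 F t - sm N κ 1 (sm N κ 2 F) t)
        (sm N κ 1 (sm N κ 2 F) t - sm N κ 0 (sm N κ 1 (sm N κ 2 F)) t)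
  linarith

/-! ### Symmetrisation -/

theorem mon_perm (σ : Equiv.Perm (Fin 3)) (m : Fin 3 → ℤ) (t : Fin 3 → ℝ) :
    mon (m ∘ σ.symm) t = mon m (t ∘ σ) := by
  unfold mon
  congr 3
  rw [← Equiv.sum_comp σ]
  refine sum_congr rfl fun i _ => ?_
  simp

/-- **JACK.** -/
theorem t_jack (h : S_KERN) : S_JACK := by
  intro N F B hB hL hS
  obtain ⟨κ, h0, hpos, hmean⟩ := h N
  have hpos' : ∀ u, 0 ≤ ker N κ u := hpos
  have hmean' : (∫ u in (-Real.pi)..Real.pi, |u| * ker N κ u) ≤ 2 * Real.pi * (Real.pi ^ 2 / (2 * (N + 2))) := hmean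
  have hcard : Fintype.card (Equiv.Perm (Fin 3)) = 6 := by
    rw [Fintype.card_perm, Fintype.card_fin]
    rfl
  refine ⟨fun n => (6 : ℂ)⁻¹ * ∑ σ : Equiv.Perm (Fin 3), p0 κ F (n ∘ σ), fun τ n => ?_, fun t => ?_⟩
  · show (6 : ℂ)⁻¹ * ∑ σ : Equiv.Perm (Fin 3), p0 κ F ((n ∘ τ) ∘ σ) = (6 : ℂ)⁻¹ * ∑ σ : Equiv.Perm (Fin 3), p0 κ F (n ∘ σ)
    congr 1
    exact Fintype.sum_equiv (Equiv.mulLeft τ) _ _ (fun σ => rfl)
  · obtain ⟨I, hI⟩ : ∃ I, I = Fintype.piFinset (fun _ : Fin 3 => Icc (-(N : ℤ)) N) := ⟨_, rfl⟩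
    rw [← hI]
    have e1 : ∀ σ : Equiv.Perm (Fin 3), ∑ n ∈ I, p0 κ F (n ∘ σ) * mon n t = ∑ m ∈ I, p0 κ F m * mon m (t ∘ σ) := by
      intro σ
      refine sum_nbij' (fun n => n ∘ σ) (fun m => m ∘ σ.symm) ?_ ?_ ?_ ?_ ?_
      · intro n hn
        rw [hI, Fintype.mem_piFinset] at hn ⊢
        exact fun j => hn (σ j)
      · intro n hn
        rw [hI, Fintype.mem_piFinset] at hn ⊢
        exact fun j => hn (σ.symm j)
      · intro n _
        funext j
        simp
      · intro n _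
        funext j
        simp
      · intro n _
        rw [← mon_perm]
        congr 2
        funext j
        simp
    have e2 : (F t : ℂ) - ∑ n ∈ I, (6 : ℂ)⁻¹ * (∑ σ : Equiv.Perm (Fin 3), p0 κ F (n ∘ σ)) * mon n t =
        (6 : ℂ)⁻¹ * ∑ σ : Equiv.Perm (Fin 3), ((F (t ∘ σ) : ℂ) - ∑ m ∈ I, p0 κ F m * mon m (t ∘ σ)) := by
      rw [sum_sub_distrib, mul_sub]
      congr 1
      · rw [sum_congr rfl (fun σ _ => by rw [hS σ t]), sum_const, card_univ, hcard, nsmul_eq_mul]
        push_cast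
        ring
      · rw [← sum_congr rfl (fun σ _ => e1 σ), sum_comm, mul_sum]
        refine sum_congr rfl fun n _ => ?_
        rw [← sum_mul]
        ring
    show ‖(F t : ℂ) - ∑ n ∈ I, (6 : ℂ)⁻¹ * (∑ σ : Equiv.Perm (Fin 3), p0 κ F (n ∘ σ)) * mon n t‖ ≤ _
    rw [e2, norm_mul]
    have e3 : ‖∑ σ : Equiv.Perm (Fin 3), ((F (t ∘ σ) : ℂ) - ∑ m ∈ I, p0 κ F m * mon m (t ∘ σ))‖ ≤
        ∑ _σ : Equiv.Perm (Fin 3), 3 * B * (Real.pi ^ 2 / (2 * (N + 2))) := by
      refine (norm_sum_le _ _).trans (sum_le_sum fun σ _ => ?_)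
      rw [hI]
      exact near3 h0 hpos' hmean' hB hL (t ∘ σ)
    rw [sum_const, card_univ, hcard, nsmul_eq_mul] at e3
    have e4 : ‖(6 : ℂ)⁻¹‖ = (6 : ℝ)⁻¹ := by simp
    rw [e4]
    push_cast at e3
    linarith

end Pool.Agent.H696.G3
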